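import Pool.Agent.helper64.PB.SpecC

/-! # pb:EID (helper49): linear simulation, idempotent functions -/

set_option autoImplicit false

namespace Pool.Agent.PB

theorem EID_mono {G : Set Gate} {n : ℕ} {f : BF n} {s s' : ℕ} (h : Size G f s) (hs : s ≤ s') :
    Size G f s' := by
  obtain ⟨l, h1, h2, h3⟩ := h
  exact ⟨l, h1, le_trans h2 hs, h3⟩

theorem EID_prog {G : Set Gate} {m n : ℕ} (φ : Fin m → Fin n) {l : List (BF m)} (h : Prog G m l) :
    Prog G n (l.map (fun (u : BF m) => (fun x => u (fun i => x (φ i)) : BF n))) := by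
  induction h with
  | nil => exact Prog.nil
  | step l g a hl hg ha ih =>
    have := Prog.step (l.map (fun (u : BF m) => (fun x => u (fun i => x (φ i)) : BF n))) g
      (fun i => (fun x => a i (fun j => x (φ j)) : BF n)) ih hg (by
        intro i
        rcases ha i with h1 | ⟨j, hj⟩
        · left
          exact List.mem_map.2 ⟨a i, h1, rfl⟩
        · right
          refine ⟨φ j, ?_⟩
          simp only [hj])
    exact this

theorem EID_ren {G : Set Gate} {m n : ℕ} (φ : Fin m → Fin n) {F : BF m} {s : ℕ} (h : Size G F s) :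
    Size G (fun x : Fin n → Bool => F (fun i => x (φ i))) s := by
  obtain ⟨l, h1, h2, h3⟩ := h
  refine ⟨l.map (fun (u : BF m) => (fun x => u (fun i => x (φ i)) : BF n)), EID_prog φ h1, ?_, ?_⟩
  · rw [List.length_map]; exact h2
  · rcases h3 with h3 | ⟨j, hj⟩
    · left
      exact List.mem_map.2 ⟨F, h3, rfl⟩
    · right
      refine ⟨φ j, ?_⟩
      rw [hj]

/-- the shadow -/
def EID_S (n : ℕ) (u : BF n) : BF n := fun x =>
  if x = (fun _ => false) then false else if x = (fun _ => true) then true else u x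

theorem EID_zero (n : ℕ) (u : BF n) : EID_S n u (fun _ => false) = false := by
  simp [EID_S]

theorem EID_ne {n : ℕ} (hn : 1 ≤ n) : (fun _ : Fin n => true) ≠ (fun _ => false) := by
  intro h
  have := congrFun h ⟨0, hn⟩
  simp at this

theorem EID_one {n : ℕ} (hn : 1 ≤ n) (u : BF n) : EID_S n u (fun _ => true) = true := by
  show (if (fun _ : Fin n => true) = (fun _ => false) then false
    else if (fun _ : Fin n => true) = (fun _ => true) then true else u (fun _ => true)) = true
  rw [if_neg (EID_ne hn), if_pos rfl]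

theorem EID_else {n : ℕ} (u : BF n) {x : Fin n → Bool} (h0 : x ≠ fun _ => false)
    (h1 : x ≠ fun _ => true) : EID_S n u x = u x := by
  simp only [EID_S]
  rw [if_neg h0, if_neg h1]

theorem EID_or0 (n : ℕ) : allOr n (fun _ => false) = false := by
  simp [allOr]

theorem EID_or1 {n : ℕ} {x : Fin n → Bool} (h0 : x ≠ fun _ => false) : allOr n x = true := by
  simp only [allOr, decide_eq_true_eq]
  by_contra h
  apply h0
  funext i
  cases hx : x i
  · rfl
  · exact absurd ⟨i, hx⟩ h

theorem EID_and1 (n : ℕ) : allAnd n (fun _ => true) = true := by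
  simp [allAnd]

theorem EID_and0 {n : ℕ} {x : Fin n → Bool} (h1 : x ≠ fun _ => true) : allAnd n x = false := by
  simp only [allAnd, decide_eq_false_iff_not]
  intro h
  apply h1
  funext i
  exact h i

theorem EID_cases {n : ℕ} (x : Fin n → Bool) :
    x = (fun _ => false) ∨ x = (fun _ => true) ∨ (x ≠ (fun _ => false) ∧ x ≠ (fun _ => true)) := by
  by_cases h0 : x = fun _ => false
  · exact Or.inl h0
  · by_cases h1 : x = fun _ => true
    · exact Or.inr (Or.inl h1)
    · exact Or.inr (Or.inr ⟨h0, h1⟩)

theorem EID (hSIM : SIM_stmt) (hALA : ALA_stmt) (hALO : ALO_stmt) (hAPP : APP_stmt) : EID_stmt := by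
  intro G g hAnd hOr hg g000 g111 g100 g101
  obtain ⟨c1, hc1⟩ := hALA G hAnd
  obtain ⟨c2, hc2⟩ := hALO G hOr
  obtain ⟨sa, hsa⟩ := hAnd
  obtain ⟨so, hso⟩ := hOr
  obtain ⟨sg, hsg⟩ := hg
  refine ⟨(sa + so + sg) + (c1 + c2), ?_⟩
  intro n hn f hf0 hf1 s hs
  obtain ⟨lb, hlb, hlb2, hlb3⟩ := hc1 n hn
  obtain ⟨lt, hlt, hlt2, hlt3⟩ := hc2 n hn
  have hl0 : Prog G n (lt ++ lb) := hAPP G n lt lb hlt hlb
  have hΓa : Size G (fun y : Fin 4 → Bool => fAnd (fun i => y ((![0, 1] : Fin 2 → Fin 4) i)))
      (sa + so + sg) := EID_mono (EID_ren (![0, 1] : Fin 2 → Fin 4) hsa) (by omega)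
  have hΓo : Size G (fun y : Fin 4 → Bool => fOr (fun i => y ((![0, 1] : Fin 2 → Fin 4) i)))
      (sa + so + sg) := EID_mono (EID_ren (![0, 1] : Fin 2 → Fin 4) hso) (by omega)
  have hΓn : Size G (fun y : Fin 3 → Bool => g (fun i => y ((![1, 2, 0] : Fin 3 → Fin 3) i)))
      (sa + so + sg) := EID_mono (EID_ren (![1, 2, 0] : Fin 3 → Fin 3) hsg) (by omega)
  have hgv : ∀ a b c : Bool, g (fun i => (![a, b, c] : Fin 3 → Bool) ((![1, 2, 0] : Fin 3 → Fin 3) i)) =
      g ![b, c, a] := by
    intro a b c
    congr 1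
    funext i
    fin_cases i <;> rfl
  have havt : Av (lt ++ lb) (allOr n) := by
    rcases hlt3 with h | h
    · exact Or.inl (List.mem_append.2 (Or.inl h))
    · exact Or.inr h
  have havb : Av (lt ++ lb) (allAnd n) := by
    rcases hlb3 with h | h
    · exact Or.inl (List.mem_append.2 (Or.inr h))
    · exact Or.inr h
  have hvar : ∀ j : Fin n, EID_S n (fun x => x j) = fun x => x j := by
    intro j
    funext x
    rcases EID_cases x with h | h | ⟨h0, h1⟩
    · rw [h, EID_zero]
    · rw [h, EID_one hn]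
    · rw [EID_else _ h0 h1]
  have hconst : ∀ v : Bool, Av (lt ++ lb) (EID_S n (fC v n)) := by
    intro v
    cases v
    · have : EID_S n (fC false n) = allAnd n := by
        funext x
        rcases EID_cases x with h | h | ⟨h0, h1⟩
        · rw [h, EID_zero, EID_and0 (EID_ne hn).symm]
        · rw [h, EID_one hn, EID_and1]
        · rw [EID_else _ h0 h1, EID_and0 h1]
          rfl
      rw [this]
      exact havb
    · have : EID_S n (fC true n) = allOr n := by
        funext x
        rcases EID_cases x with h | h | ⟨h0, h1⟩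
        · rw [h, EID_zero, EID_or0]
        · rw [h, EID_one hn, EID_or1 (EID_ne hn)]
        · rw [EID_else _ h0 h1, EID_or1 h0]
          rfl
      rw [this]
      exact havt
  have key := hSIM G n (EID_S n) (allOr n) (allAnd n) (lt ++ lb) (sa + so + sg) _ _ _ hl0 havt havb
    (fun j => by rw [hvar j]; exact Or.inr ⟨j, rfl⟩) hconst hΓa hΓo hΓn
    (by
      intro u v
      funext x
      rcases EID_cases x with h | h | ⟨h0, h1⟩
      · subst h
        simp [EID_zero, fAnd]
      · subst h
        simp [EID_one hn, fAnd]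
      · rw [EID_else _ h0 h1, EID_else _ h0 h1, EID_else _ h0 h1]
        rfl)
    (by
      intro u v
      funext x
      rcases EID_cases x with h | h | ⟨h0, h1⟩
      · subst h
        simp [EID_zero, fOr]
      · subst h
        simp [EID_one hn, fOr]
      · rw [EID_else _ h0 h1, EID_else _ h0 h1, EID_else _ h0 h1]
        rfl)
    (by
      intro u
      funext x
      rw [hgv]
      rcases EID_cases x with h | h | ⟨h0, h1⟩
      · subst h
        rw [EID_zero, EID_zero, EID_or0, EID_and0 (EID_ne hn).symm, g000]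
      · subst h
        rw [EID_one hn, EID_one hn, EID_or1 (EID_ne hn), EID_and1, g111]
      · rw [EID_else _ h0 h1, EID_else _ h0 h1, EID_or1 h0, EID_and0 h1]
        cases u x
        · rw [g100]; rfl
        · rw [g101]; rfl)
    f s hs
  have hSf : EID_S n f = f := by
    funext x
    rcases EID_cases x with h | h | ⟨h0, h1⟩
    · rw [h, EID_zero, hf0]
    · rw [h, EID_one hn, hf1]
    · rw [EID_else _ h0 h1]
  rw [hSf] at key
  refine EID_mono key ?_
  rw [List.length_append]
  have h3 : lt.length + lb.length ≤ c2 * n + c1 * n := Nat.add_le_add hlt2 hlb2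
  nlinarith [Nat.zero_le ((sa + so + sg) * n), Nat.zero_le ((c1 + c2) * s)]

end Pool.Agent.PB
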