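import Pool.Agent.helper64.PB.SpecF

/-! # pb:GS2 (helper49): circuits for linear systems over the field with two elements -/

set_option autoImplicit false

namespace Pool.Agent.PB

/-- everything in `T` can be made available with `k` more gates if everything in `S` is available -/
def GS2_Ext {n : ℕ} (S T : Set (BF n)) (k : ℕ) : Prop :=
  ∀ l, Prog std n l → (∀ f ∈ S, Av l f) →
    ∃ l', Prog std n (l' ++ l) ∧ l'.length ≤ k ∧ ∀ f ∈ T, Av (l' ++ l) f

theorem GS2_av_mono {n : ℕ} {l l' : List (BF n)} {f : BF n} (h : Av l f) : Av (l' ++ l) f := by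
  rcases h with h | h
  · exact Or.inl (List.mem_append.2 (Or.inr h))
  · exact Or.inr h

theorem GS2_weak {n : ℕ} {S S' T T' : Set (BF n)} {k k' : ℕ} (h : GS2_Ext S T k) (hS : S ⊆ S')
    (hT : T' ⊆ T) (hk : k ≤ k') : GS2_Ext S' T' k' := by
  intro l hl hS'
  obtain ⟨l', h1, h2, h3⟩ := h l hl (fun f hf => hS' f (hS hf))
  exact ⟨l', h1, le_trans h2 hk, fun f hf => h3 f (hT hf)⟩

theorem GS2_trans {n : ℕ} {S T U : Set (BF n)} {k k' : ℕ} (h : GS2_Ext S T k)
    (h' : GS2_Ext (S ∪ T) U k') : GS2_Ext S (T ∪ U) (k + k') := by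
  intro l hl hS
  obtain ⟨l1, h1, h2, h3⟩ := h l hl hS
  obtain ⟨l2, g1, g2, g3⟩ := h' (l1 ++ l) h1 (by
    rintro f (hf | hf)
    · exact GS2_av_mono (hS f hf)
    · exact h3 f hf)
  refine ⟨l2 ++ l1, ?_, ?_, ?_⟩
  · rw [List.append_assoc]; exact g1
  · rw [List.length_append]; omega
  · rintro f (hf | hf)
    · rw [List.append_assoc]; exact GS2_av_mono (h3 f hf)
    · rw [List.append_assoc]; exact g3 f hf

/-- the last step only -/
theorem GS2_then {n : ℕ} {S T U : Set (BF n)} {k k' : ℕ} (h : GS2_Ext S T k)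
    (h' : GS2_Ext (S ∪ T) U k') : GS2_Ext S U (k + k') :=
  GS2_weak (GS2_trans h h') (le_refl _) Set.subset_union_right (le_refl _)

theorem GS2_var {n : ℕ} (j : Fin n) (S : Set (BF n)) : GS2_Ext S {fun x => x j} 0 := by
  intro l hl _
  refine ⟨[], hl, le_refl _, ?_⟩
  intro f hf
  rw [Set.mem_singleton_iff.1 hf]
  exact Or.inr ⟨j, rfl⟩

theorem GS2_const {n : ℕ} (b : Bool) : GS2_Ext (∅ : Set (BF n)) {fun _ => b} 1 := by
  intro l hl _
  refine ⟨[fun _ => b], ?_, le_refl _, ?_⟩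
  · refine Prog.step l (gConst b) (fun i => i.elim0) hl ?_ (fun i => i.elim0)
    cases b
    · exact Or.inl rfl
    · exact Or.inr (Or.inl rfl)
  · intro f hf
    rw [Set.mem_singleton_iff.1 hf]
    exact Or.inl (List.mem_cons_self)

theorem GS2_not {n : ℕ} {S : Set (BF n)} (u : BF n) (hu : u ∈ S ∨ ∃ j, u = fun x => x j) :
    GS2_Ext S {fun x => !(u x)} 1 := by
  intro l hl hS
  refine ⟨[fun x => !(u x)], ?_, le_refl _, ?_⟩
  · refine Prog.step l gNot (fun _ => u) hl (Or.inr (Or.inr (Or.inl rfl))) (fun _ => ?_)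
    rcases hu with h | h
    · exact hS u h
    · exact Or.inr h
  · intro f hf
    rw [Set.mem_singleton_iff.1 hf]
    exact Or.inl (List.mem_cons_self)

theorem GS2_and {n : ℕ} {S : Set (BF n)} (u v : BF n) (hu : u ∈ S ∨ ∃ j, u = fun x => x j)
    (hv : v ∈ S ∨ ∃ j, v = fun x => x j) : GS2_Ext S {fun x => u x && v x} 1 := by
  intro l hl hS
  refine ⟨[fun x => u x && v x], ?_, le_refl _, ?_⟩
  · have ha : ∀ i : Fin 2, Av l ((fun i : Fin 2 => if i = 0 then u else v) i) := by
      intro i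
      show Av l (if i = 0 then u else v)
      by_cases hi : i = 0
      · rw [if_pos hi]
        rcases hu with h | h
        · exact hS u h
        · exact Or.inr h
      · rw [if_neg hi]
        rcases hv with h | h
        · exact hS v h
        · exact Or.inr h
    exact Prog.step l gAnd (fun i : Fin 2 => if i = 0 then u else v) hl
      (Or.inr (Or.inr (Or.inr (Or.inl rfl)))) ha
  · intro f hf
    rw [Set.mem_singleton_iff.1 hf]
    exact Or.inl (List.mem_cons_self)

theorem GS2_or {n : ℕ} {S : Set (BF n)} (u v : BF n) (hu : u ∈ S ∨ ∃ j, u = fun x => x j)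
    (hv : v ∈ S ∨ ∃ j, v = fun x => x j) : GS2_Ext S {fun x => u x || v x} 1 := by
  intro l hl hS
  refine ⟨[fun x => u x || v x], ?_, le_refl _, ?_⟩
  · have ha : ∀ i : Fin 2, Av l ((fun i : Fin 2 => if i = 0 then u else v) i) := by
      intro i
      show Av l (if i = 0 then u else v)
      by_cases hi : i = 0
      · rw [if_pos hi]
        rcases hu with h | h
        · exact hS u h
        · exact Or.inr h
      · rw [if_neg hi]
        rcases hv with h | h
        · exact hS v h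
        · exact Or.inr h
    exact Prog.step l gOr (fun i : Fin 2 => if i = 0 then u else v) hl
      (Or.inr (Or.inr (Or.inr (Or.inr rfl)))) ha
  · intro f hf
    rw [Set.mem_singleton_iff.1 hf]
    exact Or.inl (List.mem_cons_self)

theorem GS2_fam {n : ℕ} {S : Set (BF n)} (k : ℕ) : ∀ (m : ℕ) (T : Fin m → Set (BF n)),
    (∀ i, GS2_Ext S (T i) k) → GS2_Ext S (⋃ i, T i) (m * k)
  | 0, T, _ => by
    intro l hl _
    refine ⟨[], hl, le_of_eq (by simp), ?_⟩
    intro f hf
    obtain ⟨i, _⟩ := Set.mem_iUnion.1 hf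
    exact i.elim0
  | m + 1, T, h => by
    have h1 := GS2_fam k m (fun i => T i.castSucc) (fun i => h i.castSucc)
    have h2 : GS2_Ext (S ∪ ⋃ i : Fin m, T i.castSucc) (T (Fin.last m)) k :=
      GS2_weak (h (Fin.last m)) Set.subset_union_left (le_refl _) (le_refl _)
    refine GS2_weak (GS2_trans h1 h2) (le_refl _) ?_ (le_of_eq (by ring))
    intro f hf
    obtain ⟨i, hi⟩ := Set.mem_iUnion.1 hf
    rcases Fin.eq_castSucc_or_eq_last i with ⟨j, hj⟩ | hj
    · left
      rw [hj] at hi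
      exact Set.mem_iUnion.2 ⟨j, hi⟩
    · right
      rw [hj] at hi
      exact hi

theorem GS2_bigor {n : ℕ} : ∀ (N : ℕ) (S : Set (BF n)) (h : Fin N → BF n),
    (∀ j, h j ∈ S ∨ ∃ i, h j = fun x => x i) →
    GS2_Ext S {fun x => decide (∃ j, h j x = true)} (N + 1)
  | 0, S, h, _ => by
    have h0 : (fun x => decide (∃ j : Fin 0, h j x = true)) = (fun _ => false : BF n) := by
      funext x
      simp
    rw [h0]
    exact GS2_weak (GS2_const false) (Set.empty_subset _) (le_refl _) (le_refl _)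
  | N + 1, S, h, hh => by
    have h1 := GS2_bigor N S (fun j => h j.castSucc) (fun j => hh j.castSucc)
    have h2 : GS2_Ext (S ∪ {fun x => decide (∃ j : Fin N, h j.castSucc x = true)})
        {fun x => (decide (∃ j : Fin N, h j.castSucc x = true)) || h (Fin.last N) x} 1 :=
      GS2_or _ _ (Or.inl (Or.inr rfl)) (by
        rcases hh (Fin.last N) with h' | h'
        · exact Or.inl (Or.inl h')
        · exact Or.inr h')
    have h3 : (fun x => decide (∃ j : Fin (N + 1), h j x = true)) =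
        (fun x => (decide (∃ j : Fin N, h j.castSucc x = true)) || h (Fin.last N) x : BF n) := by
      funext x
      rw [Bool.eq_iff_iff]
      simp only [decide_eq_true_eq, Bool.or_eq_true]
      constructor
      · rintro ⟨j, hj⟩
        rcases Fin.eq_castSucc_or_eq_last j with ⟨i, hi⟩ | hi
        · left; exact ⟨i, by rw [← hi]; exact hj⟩
        · right; rw [← hi]; exact hj
      · rintro (⟨j, hj⟩ | hj)
        · exact ⟨j.castSucc, hj⟩
        · exact ⟨Fin.last N, hj⟩
    rw [h3]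
    exact GS2_then h1 h2

theorem GS2_xor {n : ℕ} {S : Set (BF n)} (u v : BF n) (hu : u ∈ S ∨ ∃ j, u = fun x => x j)
    (hv : v ∈ S ∨ ∃ j, v = fun x => x j) : GS2_Ext S {fun x => xor (u x) (v x)} 4 := by
  have hu' : ∀ T : Set (BF n), u ∈ S ∪ T ∨ ∃ j, u = fun x => x j := fun T => by
    rcases hu with h | h
    · exact Or.inl (Or.inl h)
    · exact Or.inr h
  have hv' : ∀ T : Set (BF n), v ∈ S ∪ T ∨ ∃ j, v = fun x => x j := fun T => by
    rcases hv with h | h
    · exact Or.inl (Or.inl h)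
    · exact Or.inr h
  have h1 : GS2_Ext S {fun x => u x || v x} 1 := GS2_or u v hu hv
  have h2 : GS2_Ext (S ∪ {fun x => u x || v x}) {fun x => u x && v x} 1 :=
    GS2_and u v (hu' _) (hv' _)
  have h12 := GS2_trans h1 h2
  have h3 : GS2_Ext (S ∪ ({fun x => u x || v x} ∪ {fun x => u x && v x}))
      {fun x => !(u x && v x)} 1 := GS2_not _ (Or.inl (Or.inr (Or.inr rfl)))
  have h123 := GS2_trans h12 h3
  have h4 : GS2_Ext (S ∪ ({fun x => u x || v x} ∪ {fun x => u x && v x} ∪
      {fun x => !(u x && v x)})) {fun x => (u x || v x) && !(u x && v x)} 1 :=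
    GS2_and _ _ (Or.inl (Or.inr (Or.inl (Or.inl rfl)))) (Or.inl (Or.inr (Or.inr rfl)))
  have h5 : (fun x => xor (u x) (v x)) = (fun x => (u x || v x) && !(u x && v x) : BF n) := by
    funext x
    cases u x <;> cases v x <;> rfl
  rw [h5]
  exact GS2_then h123 h4

section

variable (M N : ℕ)

/-- the entry `(i, j)` -/
def GS2_z (i : Fin (M + 1)) (j : Fin (N + 1)) : BF ((M + 1) * (N + 1)) :=
  fun z => z (finProdFinEquiv (i, j))

/-- the pivot of the first row -/
def GS2_piv (j : Fin N) : BF ((M + 1) * (N + 1)) :=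
  fun z => piv (fun j : Fin N => z (finProdFinEquiv ((0 : Fin (M + 1)), j.castSucc))) j

/-- the multiplier of row `i` -/
def GS2_pe (i : Fin M) : BF ((M + 1) * (N + 1)) :=
  fun z => pe (fun j : Fin N => z (finProdFinEquiv ((0 : Fin (M + 1)), j.castSucc)))
    (fun j : Fin N => z (finProdFinEquiv (i.succ, j.castSucc)))

/-- the new entries -/
def GS2_e (p : Fin M × Fin (N + 1)) : BF ((M + 1) * (N + 1)) :=
  fun z => xor (z (finProdFinEquiv (p.1.succ, p.2)))
    (GS2_pe M N p.1 z && z (finProdFinEquiv ((0 : Fin (M + 1)), p.2)))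

theorem GS2_piv_ext (j : Fin N) : GS2_Ext ∅ {GS2_piv M N j} (N + 2) := by
  have h1 := GS2_bigor (n := (M + 1) * (N + 1)) j.val ∅
    (fun t => fun z => z (finProdFinEquiv ((0 : Fin (M + 1)),
      (⟨t.val, by omega⟩ : Fin N).castSucc)))
    (fun t => Or.inr ⟨_, rfl⟩)
  have h2 := GS2_trans h1 (GS2_not _ (Or.inl (Or.inr rfl)))
  have h3 := GS2_then h2 (GS2_and (fun z => z (finProdFinEquiv ((0 : Fin (M + 1)), j.castSucc)))
    _ (Or.inr ⟨_, rfl⟩) (Or.inl (Or.inr (Or.inr rfl))))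
  refine GS2_weak h3 (le_refl _) ?_ (by omega)
  intro f hf
  rw [Set.mem_singleton_iff.1 hf]
  refine Set.mem_singleton_iff.2 ?_
  funext z
  simp only [GS2_piv, piv]
  congr 1
  rw [Bool.eq_iff_iff]
  simp only [decide_eq_true_eq, Bool.not_eq_true', decide_eq_false_iff_not, not_exists]
  constructor
  · intro h t ht
    have := h ⟨t.val, by omega⟩ (by
      rw [Fin.lt_def]
      exact t.isLt)
    rw [this] at ht
    exact absurd ht (by decide)
  · intro h j' hj'
    have := h ⟨j'.val, by rwa [Fin.lt_def] at hj'⟩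
    cases hz : z (finProdFinEquiv ((0 : Fin (M + 1)), j'.castSucc))
    · rfl
    · exact absurd hz this

theorem GS2_pe_ext (i : Fin M) :
    GS2_Ext (⋃ j : Fin N, {GS2_piv M N j}) {GS2_pe M N i} (2 * N + 1) := by
  have h1 := GS2_fam (S := ⋃ j : Fin N, {GS2_piv M N j}) 1 N
    (fun j => {fun z => GS2_piv M N j z && z (finProdFinEquiv (i.succ, j.castSucc))})
    (fun j => GS2_and (GS2_piv M N j) (fun z => z (finProdFinEquiv (i.succ, j.castSucc)))
      (Or.inl (Set.mem_iUnion.2 ⟨j, rfl⟩)) (Or.inr ⟨_, rfl⟩))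
  have h2 := GS2_then h1 (GS2_bigor N _
    (fun j => fun z => GS2_piv M N j z && z (finProdFinEquiv (i.succ, j.castSucc)))
    (fun j => Or.inl (Or.inr (Set.mem_iUnion.2 ⟨j, rfl⟩))))
  refine GS2_weak h2 (le_refl _) ?_ (by omega)
  intro f hf
  rw [Set.mem_singleton_iff.1 hf]
  refine Set.mem_singleton_iff.2 ?_
  funext z
  simp only [GS2_pe, pe, GS2_piv, Bool.and_eq_true]

theorem GS2_e_ext (p : Fin M × Fin (N + 1)) :
    GS2_Ext (⋃ i : Fin M, {GS2_pe M N i}) {GS2_e M N p} 5 := by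
  have h1 : GS2_Ext (⋃ i : Fin M, {GS2_pe M N i})
      {fun z => GS2_pe M N p.1 z && z (finProdFinEquiv ((0 : Fin (M + 1)), p.2))} 1 :=
    GS2_and (GS2_pe M N p.1) (fun z => z (finProdFinEquiv ((0 : Fin (M + 1)), p.2)))
      (Or.inl (Set.mem_iUnion.2 ⟨p.1, rfl⟩)) (Or.inr ⟨_, rfl⟩)
  have h2 := GS2_then h1 (GS2_xor (fun z => z (finProdFinEquiv (p.1.succ, p.2))) _
    (Or.inr ⟨_, rfl⟩) (Or.inl (Or.inr rfl)))
  exact h2

/-- the new entries in the order of the variables of `solvF M N` -/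
def GS2_phi (k : Fin (M * (N + 1))) : BF ((M + 1) * (N + 1)) :=
  GS2_e M N (finProdFinEquiv.symm k)

theorem GS2_phi_ext : GS2_Ext ∅ (⋃ k : Fin (M * (N + 1)), {GS2_phi M N k})
    (N * (N + 2) + M * (2 * N + 1) + M * (N + 1) * 5) := by
  have h1 := GS2_fam (S := (∅ : Set (BF ((M + 1) * (N + 1))))) (N + 2) N
    (fun j => {GS2_piv M N j}) (fun j => GS2_piv_ext M N j)
  have h2 := GS2_fam (S := ∅ ∪ ⋃ j : Fin N, {GS2_piv M N j}) (2 * N + 1) M
    (fun i => {GS2_pe M N i}) (fun i => GS2_weak (GS2_pe_ext M N i) Set.subset_union_right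
      (le_refl _) (le_refl _))
  have h12 := GS2_then h1 h2
  have h3 := GS2_fam (S := ∅ ∪ ⋃ i : Fin M, {GS2_pe M N i}) 5 (M * (N + 1))
    (fun k => {GS2_phi M N k}) (fun k => GS2_weak (GS2_e_ext M N (finProdFinEquiv.symm k))
      Set.subset_union_right (le_refl _) (le_refl _))
  exact GS2_then h12 h3

theorem GS2_eq (hGS1 : GS1_stmt) (z : Fin ((M + 1) * (N + 1)) → Bool) :
    solvF (M + 1) N z =
      ((decide (∃ j : Fin N, z (finProdFinEquiv ((0 : Fin (M + 1)), j.castSucc)) = true) ||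
        !(z (finProdFinEquiv ((0 : Fin (M + 1)), Fin.last N)))) &&
        solvF M N (fun k => GS2_phi M N k z)) := by
  have h := hGS1 M N (fun i j => z (finProdFinEquiv (i, j.castSucc)))
    (fun i => z (finProdFinEquiv (i, Fin.last N)))
  rw [Bool.eq_iff_iff]
  simp only [solvF, GS2_phi, GS2_e, Equiv.symm_apply_apply, decide_eq_true_eq, Bool.and_eq_true,
    Bool.or_eq_true, Bool.not_eq_true']
  exact h

theorem GS2_step (hGS1 : GS1_stmt) (hSUB : SUB_stmt) (s : ℕ) (hs : Size std (solvF M N) s) :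
    Size std (solvF (M + 1) N) (s + 7 * (M + 1) * (N + 1) ^ 2) := by
  obtain ⟨l1, p1, q1, r1⟩ := GS2_phi_ext M N [] Prog.nil (fun f hf => absurd hf (Set.notMem_empty f))
  obtain ⟨l2, p2, q2, r2⟩ := hSUB std (M * (N + 1)) ((M + 1) * (N + 1)) (solvF M N) s (l1 ++ [])
    (GS2_phi M N) hs p1 (fun k => r1 _ (Set.mem_iUnion.2 ⟨k, rfl⟩))
  have h1 : GS2_Ext ({fun z => solvF M N (fun k => GS2_phi M N k z)} : Set (BF ((M + 1) * (N + 1))))
      {fun z => decide (∃ j : Fin N, z (finProdFinEquiv ((0 : Fin (M + 1)), j.castSucc)) = true)}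
      (N + 1) :=
    GS2_bigor N _ (fun j => fun z => z (finProdFinEquiv ((0 : Fin (M + 1)), j.castSucc)))
      (fun j => Or.inr ⟨_, rfl⟩)
  have h2 := GS2_trans h1 (GS2_not (fun z => z (finProdFinEquiv ((0 : Fin (M + 1)), Fin.last N)))
    (Or.inr ⟨_, rfl⟩))
  have h3 := GS2_trans h2 (GS2_or _ _ (Or.inl (Or.inr (Or.inl rfl))) (Or.inl (Or.inr (Or.inr rfl))))
  have h4 := GS2_then h3 (GS2_and _ _ (Or.inl (Or.inr (Or.inr rfl))) (Or.inl (Or.inl rfl)))
  obtain ⟨l3, p3, q3, r3⟩ := h4 (l2 ++ (l1 ++ [])) p2 (fun f hf => by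
    rw [Set.mem_singleton_iff.1 hf]; exact r2)
  refine ⟨l3 ++ (l2 ++ (l1 ++ [])), p3, ?_, ?_⟩
  · rw [List.length_append, List.length_append, List.append_nil]
    nlinarith [q1, q2, q3, Nat.zero_le (M * N), Nat.zero_le (M * N * N), Nat.zero_le (N * N)]
  · have := r3 _ rfl
    have h5 : solvF (M + 1) N = fun z =>
      ((decide (∃ j : Fin N, z (finProdFinEquiv ((0 : Fin (M + 1)), j.castSucc)) = true) ||
        !(z (finProdFinEquiv ((0 : Fin (M + 1)), Fin.last N)))) &&
        solvF M N (fun k => GS2_phi M N k z)) := by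
      funext z
      exact GS2_eq M N hGS1 z
    rw [h5]
    exact this

end

theorem GS2 (hGS1 : GS1_stmt) (hSUB : SUB_stmt) (hAPP : APP_stmt) (hDNF : DNF_stmt) : GS2_stmt := by
  refine ⟨8, fun M N => ?_⟩
  induction M with
  | zero =>
    have h0 : solvF 0 N = fun _ => true := by
      funext z
      simp only [solvF, decide_eq_true_eq]
      exact ⟨fun _ => false, fun i => i.elim0⟩
    rw [h0]
    obtain ⟨l, p, q, r⟩ := GS2_const (n := 0 * (N + 1)) true [] Prog.nil
      (fun f hf => absurd hf (Set.notMem_empty f))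
    refine ⟨l ++ [], p, ?_, r _ rfl⟩
    rw [List.append_nil]
    nlinarith [q, Nat.zero_le (N * N)]
  | succ M ih =>
    obtain ⟨l, p, q, r⟩ := GS2_step M N hGS1 hSUB _ ih
    refine ⟨l, p, le_trans q ?_, r⟩
    have : (N + 1) ^ 2 * (8 * (M + 1) ^ 2 + 7 * (M + 1)) ≤ (N + 1) ^ 2 * (8 * (M + 1 + 1) ^ 2) :=
      Nat.mul_le_mul_left _ (by nlinarith [Nat.zero_le M])
    nlinarith [this]

end Pool.Agent.PB
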